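import Pool.Agent.Run7.h178.SL.Fin2

/-!
# After slides of the 2-cells all subcomplexes of a finite contractible 2-complex are aspherical

Definitions (`Pool.Agent.R655.LI.Defs`, `.Asph` of the starting library, `Run7.h178.SL.Stm`, `.Main2`):

* `Cx`: a 2-complex with one vertex, 1-cells `V`, 2-cells `R`, attaching words `r : R → FreeGroup V`;
  `L.Contractible`: `π₁(L) = 1` and the boundary operator `C₂ → C₁` is injective; `L.IsFin`: finitely many
  cells; `Sub K L`: `K` is (identified with) a subcomplex of `L`; `L.del e`: the 2-cell `e` is removed;
* `Asph K`: the boundary operator `C₂ → C₁` of the universal covering of `K` is injective, i.e.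
  `π₂(K) = 0`;
* `FgFreeByInt G`: some surjective homomorphism `G → ℤ` has a finitely generated free kernel, so
  `G = F_m ⋊ ℤ`;
* `QEq r r'`: the family `r'` of words is obtained from `r` by finitely many slides `QStep`: a word `r j` is
  multiplied by another word `r k` of the family, or inverted, or conjugated. (So the 2-complex of `r'` is
  obtained from the 2-complex of `r` by a 3-deformation which does not change the 1-skeleton.)

Proof: see the file `Pool.Agent.Results.MP_cf50d6_gt.AfterSlides`; the subcomplexes have locally indicable
fundamental groups, so they are aspherical (`Pool.Agent.R655.LI.asph_of_PInd`).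

The piece SLIDE is by helper959, GAUSS by helper216; the piece FREE uses the lemmas of the piece LI (the
first version of this theorem) by helper781.
-/

set_option autoImplicit false

namespace Pool.Agent.Results.MP_6de9fc_gt.AfterSlides

open Pool.Agent.R655.LI Run7.h178.SL Function

/-- The attaching words of the 2-cells of a finite contractible 2-complex `L` (with one vertex) can be
changed by finitely many slides such that the new 2-complex `L'` is contractible, all its subcomplexes
`K` are aspherical, and for every 2-cell `e` the fundamental group of `L' - e` is `F_m ⋊ ℤ` with a finitely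
generated free group `F_m`. -/
theorem result (L : Cx) [DecidableEq L.R] (hL : L.Contractible) (hfin : L.IsFin) :
    ∃ r' : L.R → FreeGroup L.V, QEq L.r r' ∧ (Cx.mk L.V L.R r').Contractible ∧
      (∀ (K : Cx) (_ : Sub K (Cx.mk L.V L.R r')), Asph K) ∧
      ∀ e : L.R, FgFreeByInt ((Cx.mk L.V L.R r').del e).Pi := by
  obtain ⟨r', h1, h2, h3, h4⟩ := contractible2 L hL hfin
  exact ⟨r', h1, h2, fun K s => (h4 K s).2.2, h3⟩

end Pool.Agent.Results.MP_6de9fc_gt.AfterSlides
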