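import Pool.Agent.Run7.h31.White.Graph

/-!
# Asphericity of subcomplexes of contractible 2-complexes and order-preserving actions

Let `L` be a connected subcomplex of a finite contractible 2-complex `K`, with fundamental group `G`,
and let `k` be the rank of `H₁(L)`, which is the number of the deleted 2-cells if `L` contains the
1-skeleton of `K`. Then the Euler characteristic of `L` is `1 - k`, and `G` is infinite if `k ≥ 1`. We
prove that `L` is aspherical if a subgroup `H` of finite index acts by order-preserving maps on a totally
ordered set `X` such that all but at most `(k - 1) [G : H]` generators of `H` can be pushed upwards: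
the edges of the Cayley graph have heights in `X`, and for some `g` in `H` and for these generators `s` the
translated edge from `g` to `s g` can be replaced by a path whose edges are higher than the edge from
`1` to `s`. For `k = 1`, one deleted 2-cell, it suffices that `H` acts on a graph with finitely
generated vertex stabilizers, finitely many orbits and heights in `X` whose upper subgraphs are
connected. If `X` is the real line with translations, then this is the condition of Bieri, Neumann and
Strebel. The action on `X` is arbitrary here, for instance that of a left-ordered group on itself.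

Outline. Pushing gives a chain endomorphism which lifts the identity of the trivial module and strictly
raises the heights in degree one, up to the exceptions. By `MP_984acc_gt.OrderRaising` and the
multiplicativity under restriction to `H` the first `L²`-Betti number of `G` is at most `k - 1`. Then the
dimension of the square-summable 2-cycles of the universal covering, which is the first `L²`-Betti
number plus the Euler characteristic, vanishes. Hence there are no 2-cycles. For graphs with infinite
stabilizers the complex is constructed as in Brown's criterion.
-/

set_option autoImplicit false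

open scoped Matrix

universe u v

namespace Pool.Agent.Results.MP_6de9fc_gt.PushedSubcomplexes

open Pool.Agent.Results.MP_984acc_gt.OrderRaising Run7.h31.Raise Run7.h31.White

/-- The boundary operator from degree two to degree one is injective. If `D` is the cellular chain
complex over `ℂ` of the universal covering of a finite 2-complex `L`, then this means that
`π₂(L) = 0`, that is, `L` is aspherical. -/
def IsAspherical {G : Type u} [Group G] {r : ℕ → ℕ} (D : Matrices G r) : Prop :=
  ∀ x : Fin (r 2) → MonoidAlgebra ℂ G, x ᵥ* D 1 = 0 → x = 0

/-- **Asphericity of subcomplexes and order-preserving actions.** Let `L` be a finite connected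
2-complex with infinite fundamental group `G` and `r 0`, `r 1`, `r 2` cells of dimension `0`, `1`,
`2`, let `D` be the complex of its universal covering, which is a resolution of the trivial module up to
degree two, and let `1 - k` be the Euler characteristic of `L`, as for a contractible 2-complex with
`k` deleted 2-cells.

1. If a subgroup `H` of finite index is pushed with at most `c` exceptions, then
`(k - 1) [G : H] ≤ c`, and `L` is aspherical if `(k - 1) [G : H] = c`.
2. If `G` is raised in degree one with density at most `ε`, then `k - 1 ≤ ε`, and `L` is aspherical
if `k - 1 = ε`.
3. If a subgroup of finite index acts on a graph with finitely generated vertex stabilizers, finitely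
many orbits and connected upper subgraphs, then `k ≤ 1`, and `L` is aspherical if `k = 1`. -/
theorem result (G : Type u) [Group G] [Infinite G] (r : ℕ → ℕ) (D : Matrices G r)
    (a : Fin (r 0) → ℂ) (hD : IsPartialResolution 2 D a) (k : ℕ)
    (hk : r 0 + r 2 + k = r 1 + 1) :
    (∀ (H : Subgroup G) (c : ℕ), H.FiniteIndex → IsPushed.{u, v} H c →
      k * H.index ≤ H.index + c ∧ (k * H.index = H.index + c → IsAspherical D)) ∧
    (∀ ε : ℝ, RaisedWithDensity.{u, v} G 1 ε →
      (k : ℝ) ≤ 1 + ε ∧ ((k : ℝ) = 1 + ε → IsAspherical D)) ∧
    (∀ H : Subgroup G, H.FiniteIndex → HasUpperConnectedGraph.{u, v} H →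
      k ≤ 1 ∧ (k = 1 → IsAspherical D)) := by
  have hk' : (r 1 : ℝ) - r 0 - r 2 = (k : ℝ) - 1 := by
    have h1 : ((r 0 + r 2 + k : ℕ) : ℝ) = ((r 1 + 1 : ℕ) : ℝ) := by rw [hk]
    push_cast at h1
    linarith
  have hgap := gap_le D a hD
  rw [hk'] at hgap
  have hasp : betti D 1 ≤ (k : ℝ) - 1 → IsAspherical D := by
    intro h x hx
    apply inj_of_gap D a hD _ x hx
    rw [hk']
    exact h
  have dens : ∀ ε : ℝ, RaisedWithDensity.{u, v} G 1 ε →
      (k : ℝ) ≤ 1 + ε ∧ ((k : ℝ) = 1 + ε → IsAspherical D) := by
    intro ε h
    have h1 := density_partial D a 1 ε hD h
    exact ⟨by linarith, fun h2 => hasp (by linarith)⟩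
  refine ⟨?_, dens, ?_⟩
  · intro H c hH h
    have h1 := index_partial H hH D a 1 c hD (pushed_raised h)
    have h2 : (0 : ℝ) < H.index := by
      exact_mod_cast Nat.pos_of_ne_zero hH.index_ne_zero
    have h3 : (H.index : ℝ) * ((k : ℝ) - 1) ≤ H.index * betti D 1 :=
      mul_le_mul_of_nonneg_left hgap h2.le
    constructor
    · have h4 : (k : ℝ) * H.index ≤ H.index + c := by linarith
      exact_mod_cast h4
    · intro h5
      have h6 : (k : ℝ) * H.index = H.index + c := by exact_mod_cast h5
      apply hasp
      apply le_of_mul_le_mul_left _ h2
      linarith
  · intro H hH h
    have h1 := dens 0 (density_of_upper (graph_virtually H hH h))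
    constructor
    · have h2 : (k : ℝ) ≤ 1 := by linarith [h1.1]
      exact_mod_cast h2
    · intro h2
      apply h1.2
      rw [h2]
      norm_num

end Pool.Agent.Results.MP_6de9fc_gt.PushedSubcomplexes
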