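import Pool.Agent.Run7.h178.WD.AsphFin
import Pool.Agent.Run7.h178.WD.Sep

/-!
# Labelled oriented trees with one spanning decomposition of minimal weight are aspherical

The weights come from the Alexander module: they are the values of a real cocycle on the infinite
cyclic covering of the complex.

Definitions (`Pool.Agent.Run7.h178.WD.Grp`, `.Acyc`, `.Sep`, and `Pool.Agent.N819.UD.Stm`,
`Pool.Agent.N819.LT.Defs`, `Pool.Agent.TH625.LOG.Core`, `.Tree`, `.Main` of the starting library):

* `LOG V E`: a labelled oriented graph with vertices `V` and edges `E`, the edge `e` runs from `ini e` to
  `ter e` and has the label `lab e`, an arbitrary vertex; `L.rel e = x_ini x_lab x_ter⁻¹ x_lab⁻¹`; `L.G`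
  is the group with generators `V` and relators `L.rel e`, the fundamental group of the 2-complex `K(L)`
  with one vertex, 1-cells `V` and 2-cells `E`; `L.Conn`: the graph is connected (it is a tree if it has
  moreover one vertex more than edges);
* `L.bdry`: the boundary operator `C₂ → C₁` of the universal covering of `K(L)`; `K(L)` is aspherical if
  and only if it is injective (its kernel is `π₂`);
* `sub L R`: only the 2-cells of `R ⊆ E` are kept (a subcomplex of `K(L)` with all the 1-cells);
* a spanning decomposition for `p`, `q` (the initial and the terminal vertices, or conversely) is a set
  `S` of edges with `Mix p q lab S`: the graph on `V` with the edges `{p e, lab e}`, `e ∈ S`, and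
  `{q e, lab e}`, `e ∉ S`, is connected (so a tree), and `Spans p lab S`: the graph with the edges
  `{p e, lab e}`, `e ∈ S`, has the same components as the graph with the edges `{p e, lab e}`, `e : E`;
* `IsCocycle L s`: `s : V → ℤ → ℝ` is a real cocycle on the infinite cyclic covering of `K(L)`; `s v n` is
  its value on the 1-cell `x_v` that starts at the vertex `n`; the condition is
  `s (ini e) n + s (lab e) (n+1) = s (lab e) n + s (ter e) (n+1)` for all `e`, `n`;
* `wt w S`: the sum of the `w e` over the edges `e` outside `S`; the weights are `w e = s (lab e) 0`;
* `MinDec p q lab w S`: `S` is a spanning decomposition, and `wt w S < wt w S'` for every other spanning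
  decomposition `S'`;
* `Separated L p q`: there is a spanning decomposition, and for any two different ones `S`, `S'` there is
  a real cocycle `s` with `wt w S ≠ wt w S'`, `w e = s (lab e) 0`, i.e. the sums of the classes of their
  labels are different in the space dual to the values of the cocycles;
* `L.ContractibleWith v`: `K(L) ∪ f` is contractible, where the 2-cell `f` is attached along the
  1-cell `v`.

For `s = 0` the first hypothesis says that there is exactly one spanning decomposition; this is the
starting hand-in `UniqueDecomposition`, and the case of trees (`S = E`) is Howie's theorem on the initial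
and the terminal graph.

Proof: if a finite chain is mapped to zero by the boundary operator of the universal covering, then the
coefficients of lowest height satisfy a system of equations, indexed by the edges outside `S`, in which
the coefficient of `(f, g)` is a sum of coefficients of `(f', g x_(lab f) x_(lab b)⁻¹)`, where `b ∈ S` can be
exchanged for `f'` in the initial graph and for `f` in the other graph. So there is a closed walk in the
exchange graph; the primitive of the cocycle on the universal covering shows that its cost, the sum of
the `w b - w f`, is zero. A closed walk with nonpositive cost and the smallest number of steps has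
triangular exchange matrices, so the exchange along it gives another spanning decomposition whose
weight is not larger.
-/

set_option autoImplicit false

namespace Pool.Agent.Results.MP_6de9fc_gt.WeightedDecomposition

open Pool.Agent.TH625.LOG Pool.Agent.N819.LT Pool.Agent.N819.UD Pool.Agent.Run7.h178.WD

/-- Let `L` be a labelled oriented tree, so that `K(L)` is a subcomplex of a contractible 2-complex with
one more 2-cell (last part). (1) If for some real cocycle `s` on the infinite cyclic covering of `K(L)`
exactly one spanning decomposition has minimal weight for the weights `s (lab e) 0`, then all
subcomplexes of `K(L)` are aspherical; also after the exchange of the initial and the terminal vertices.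
(2) The same if there is a spanning decomposition and any two different ones are distinguished by real
cocycles. -/
theorem result (V E : Type) [Fintype V] [Fintype E] [DecidableEq V] [DecidableEq E] (L : LOG V E)
    (hL : L.Conn) (hcard : Fintype.card V = Fintype.card E + 1) :
    (∀ s : V → ℤ → ℝ, IsCocycle L s →
      ((∃ S : Set E, MinDec L.ini L.ter L.lab (fun e => s (L.lab e) 0) S) ∨
        (∃ S : Set E, MinDec L.ter L.ini L.lab (fun e => s (L.lab e) 0) S)) →
      ∀ (R : Set E) (c : (R × (sub L R).G) →₀ ℤ), (sub L R).bdry c = 0 → c = 0) ∧
    ((Separated L L.ini L.ter ∨ Separated L L.ter L.ini) →
      ∀ (R : Set E) (c : (R × (sub L R).G) →₀ ℤ), (sub L R).bdry c = 0 → c = 0) ∧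
    ∀ v : V, L.ContractibleWith v := by
  refine ⟨?_, ?_, fun v => contractibleWith L hL hcard v⟩
  · rintro s hs (⟨S, hS⟩ | ⟨S, hS⟩) R c hc
    · exact asph_ini L hcard s hs S hS R c hc
    · exact asph_ter L hcard s hs S hS R c hc
  · rintro (h | h) R c hc
    · obtain ⟨s, hs, S, hS⟩ := exists_min L L.ini L.ter h
      exact asph_ini L hcard s hs S hS R c hc
    · obtain ⟨s, hs, S, hS⟩ := exists_min L L.ter L.ini h
      exact asph_ter L hcard s hs S hS R c hc

end Pool.Agent.Results.MP_6de9fc_gt.WeightedDecomposition
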